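import Mathlib
import Pool.Agent.Helper555_TN.DefFree

set_option autoImplicit false

/-!
# Affine automorphisms and the automorphism `x_n ↦ x_n + x_1 x_2` of the free associative algebra
-/

namespace Pool.Agent.Helper555_Gen

variable {K : Type*} [Field K] {n : ℕ}

/-- the endomorphism of the free associative algebra sending the generator `l` to `x l + f` and
fixing the other generators -/
noncomputable def elemHom (l : Fin n) (f : FreeAlgebra K (Fin n)) :
    FreeAlgebra K (Fin n) →ₐ[K] FreeAlgebra K (Fin n) :=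
  FreeAlgebra.lift K (fun j => if j = l then FreeAlgebra.ι K j + f else FreeAlgebra.ι K j)

theorem elemHom_self (l : Fin n) (f : FreeAlgebra K (Fin n)) :
    elemHom l f (FreeAlgebra.ι K l) = FreeAlgebra.ι K l + f := by simp [elemHom]

theorem elemHom_ne {l j : Fin n} (hj : j ≠ l) (f : FreeAlgebra K (Fin n)) :
    elemHom l f (FreeAlgebra.ι K j) = FreeAlgebra.ι K j := by simp [elemHom, hj]

theorem elemHom_fixed {l : Fin n} (f : FreeAlgebra K (Fin n)) {g : FreeAlgebra K (Fin n)}
    (hg : g ∈ Algebra.adjoin K (FreeAlgebra.ι K '' ({l}ᶜ : Set (Fin n)))) :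
    elemHom l f g = g := by
  have : Algebra.adjoin K (FreeAlgebra.ι K '' ({l}ᶜ : Set (Fin n))) ≤
      AlgHom.equalizer (elemHom l f) (AlgHom.id K _) := by
    apply Algebra.adjoin_le
    rintro x ⟨j, hj, rfl⟩
    exact elemHom_ne hj f
  exact this hg

theorem elemHom_comp {l : Fin n} (f g : FreeAlgebra K (Fin n))
    (hg : g ∈ Algebra.adjoin K (FreeAlgebra.ι K '' ({l}ᶜ : Set (Fin n)))) (hfg : f + g = 0) :
    (elemHom l f).comp (elemHom l g) = AlgHom.id K _ := by
  apply FreeAlgebra.hom_ext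
  funext j
  by_cases hj : j = l
  · subst hj
    simp [elemHom_self, elemHom_fixed f hg, add_assoc, hfg]
  · simp [elemHom_ne hj]

/-- the elementary automorphism of the free associative algebra sending the generator `l` to
`x l + f` and fixing the other generators, where `f` lies in the subalgebra generated by the other
generators -/
noncomputable def elemAut (l : Fin n) (f : FreeAlgebra K (Fin n))
    (hf : f ∈ Algebra.adjoin K (FreeAlgebra.ι K '' ({l}ᶜ : Set (Fin n)))) :
    FreeAlgebra K (Fin n) ≃ₐ[K] FreeAlgebra K (Fin n) :=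
  AlgEquiv.ofAlgHom (elemHom l f) (elemHom l (-f))
    (elemHom_comp _ _ (Subalgebra.neg_mem _ hf) (by simp))
    (elemHom_comp _ _ hf (by simp))

theorem elemAut_self {l : Fin n} {f : FreeAlgebra K (Fin n)}
    (hf : f ∈ Algebra.adjoin K (FreeAlgebra.ι K '' ({l}ᶜ : Set (Fin n)))) :
    elemAut l f hf (FreeAlgebra.ι K l) = FreeAlgebra.ι K l + f := by
  simp [elemAut, elemHom_self]

theorem elemAut_ne {l j : Fin n} (hj : j ≠ l) {f : FreeAlgebra K (Fin n)}
    (hf : f ∈ Algebra.adjoin K (FreeAlgebra.ι K '' ({l}ᶜ : Set (Fin n)))) :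
    elemAut l f hf (FreeAlgebra.ι K j) = FreeAlgebra.ι K j := by
  simp [elemAut, elemHom_ne hj]

theorem ι_mul_mem {n : ℕ} (hn : 4 ≤ n) :
    FreeAlgebra.ι K (⟨0, by omega⟩ : Fin n) * FreeAlgebra.ι K ⟨1, by omega⟩ ∈
      Algebra.adjoin K (FreeAlgebra.ι K '' ({⟨n - 1, by omega⟩}ᶜ : Set (Fin n))) := by
  apply Subalgebra.mul_mem
  · exact Algebra.subset_adjoin ⟨_, by simp [Fin.ext_iff]; omega, rfl⟩
  · exact Algebra.subset_adjoin ⟨_, by simp [Fin.ext_iff]; omega, rfl⟩

/-- the automorphism `x_n ↦ x_n + x_1 x_2` of the free associative algebra in `n ≥ 4` generators,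
fixing the other generators; the generators `x_1, …, x_n` are `FreeAlgebra.ι K i`, `i : Fin n`,
so `x_1`, `x_2` and `x_n` correspond to the indices `0`, `1` and `n - 1` -/
noncomputable def sigma (K : Type*) [Field K] (n : ℕ) (hn : 4 ≤ n) :
    FreeAlgebra K (Fin n) ≃ₐ[K] FreeAlgebra K (Fin n) :=
  elemAut ⟨n - 1, by omega⟩
    (FreeAlgebra.ι K ⟨0, by omega⟩ * FreeAlgebra.ι K ⟨1, by omega⟩) (ι_mul_mem hn)

/-- the product `x_1 x_2 ⋯ x_(n-1)` in the free associative algebra -/
noncomputable def prodInit (K : Type*) [Field K] (n : ℕ) : FreeAlgebra K (Fin n) :=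
  (List.ofFn (fun j : Fin (n - 1) => FreeAlgebra.ι K (⟨j, by omega⟩ : Fin n))).prod

theorem prodInit_mem {n : ℕ} (hn : 4 ≤ n) (q : ℕ) :
    prodInit K n ^ q ∈
      Algebra.adjoin K (FreeAlgebra.ι K '' ({⟨n - 1, by omega⟩}ᶜ : Set (Fin n))) := by
  apply Subalgebra.pow_mem
  apply Subalgebra.list_prod_mem
  intro x hx
  rw [List.mem_ofFn] at hx
  obtain ⟨j, rfl⟩ := hx
  exact Algebra.subset_adjoin ⟨_, by simp [Fin.ext_iff]; omega, rfl⟩

/-- the automorphism `x_n ↦ x_n + (x_1 x_2 ⋯ x_(n-1)) ^ q` fixing the other generators -/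
noncomputable def tau (K : Type*) [Field K] (n : ℕ) (hn : 4 ≤ n) (q : ℕ) :
    FreeAlgebra K (Fin n) ≃ₐ[K] FreeAlgebra K (Fin n) :=
  elemAut ⟨n - 1, by omega⟩ (prodInit K n ^ q) (prodInit_mem hn q)

end Pool.Agent.Helper555_Gen
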