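import Mathlib

set_option autoImplicit false

/-!
# A flux type invariant of polynomial automorphisms in positive characteristic
-/

open MvPolynomial

namespace Pool.Agent.Helper555_Gen

variable {K : Type*} [Field K] {n : ℕ}

/-- the span of all partial derivatives -/
noncomputable def Ex (K : Type*) [Field K] (n : ℕ) : Submodule K (MvPolynomial (Fin n) K) :=
  Submodule.span K {g | ∃ (i : Fin n) (u : MvPolynomial (Fin n) K), g = pderiv i u}

theorem pderiv_mem_Ex (i : Fin n) (u : MvPolynomial (Fin n) K) : pderiv i u ∈ Ex K n :=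
  Submodule.subset_span ⟨i, u, rfl⟩

/-- a linear map sending derivatives into `Ex` preserves `Ex` -/
theorem Ex_map {F : MvPolynomial (Fin n) K →ₗ[K] MvPolynomial (Fin n) K}
    (h : ∀ (i : Fin n) (u : MvPolynomial (Fin n) K), F (pderiv i u) ∈ Ex K n)
    {g : MvPolynomial (Fin n) K} (hg : g ∈ Ex K n) : F g ∈ Ex K n := by
  have : Ex K n ≤ (Ex K n).comap F := by
    conv_lhs => rw [Ex]
    rw [Submodule.span_le]
    rintro _ ⟨i, u, rfl⟩
    exact h i u
  exact this hg

/-- monomials with all exponents congruent to `- 1` do not occur in `Ex` -/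
theorem coeff_Ex (m : Fin n →₀ ℕ) (hm : ∀ i, ((m i + 1 : ℕ) : K) = 0)
    {g : MvPolynomial (Fin n) K} (hg : g ∈ Ex K n) : coeff m g = 0 := by
  have : Ex K n ≤ LinearMap.ker (lcoeff K m) := by
    rw [Ex, Submodule.span_le]
    rintro _ ⟨i, u, rfl⟩
    simp only [SetLike.mem_coe, LinearMap.mem_ker, lcoeff_apply]
    rw [coeff_pderiv]
    have := hm i
    push_cast at this
    rw [this, mul_zero]
  simpa using this hg

/-- the chain rule -/
theorem chain (s : MvPolynomial (Fin n) K →ₐ[K] MvPolynomial (Fin n) K) (j : Fin n)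
    (u : MvPolynomial (Fin n) K) :
    pderiv j (s u) = ∑ i, s (pderiv i u) * pderiv j (s (X i)) := by
  induction u using MvPolynomial.induction_on with
  | C a =>
    have : s (C a) = C a := by simp
    simp [this]
  | add p q hp hq => simp only [map_add, hp, hq, add_mul, Finset.sum_add_distrib]
  | mul_X p k hp =>
    rw [map_mul, pderiv_mul, hp]
    have h1 : ∀ i, s (pderiv i (p * X k)) * pderiv j (s (X i)) =
        s (pderiv i p) * pderiv j (s (X i)) * s (X k) +
          s p * (if i = k then pderiv j (s (X i)) else 0) := by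
      intro i
      rw [pderiv_mul, map_add, map_mul, map_mul]
      by_cases hik : i = k
      · subst hik; simp; ring
      · rw [pderiv_X_of_ne (fun h => hik h.symm)]; simp [hik]; ring
    rw [Finset.sum_congr rfl (fun i _ => h1 i), Finset.sum_add_distrib, ← Finset.sum_mul,
      ← Finset.mul_sum]
    simp

theorem pderiv_comm (i j : Fin n) (h : MvPolynomial (Fin n) K) :
    pderiv i (pderiv j h) = pderiv j (pderiv i h) := by
  by_cases hij : i = j
  · rw [hij]
  · ext m
    rw [coeff_pderiv, coeff_pderiv, coeff_pderiv, coeff_pderiv]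
    have h1 : m + Finsupp.single i 1 + Finsupp.single j 1 =
      m + Finsupp.single j 1 + Finsupp.single i 1 := by abel
    rw [h1]
    simp only [Finsupp.coe_add, Pi.add_apply]
    rw [Finsupp.single_eq_of_ne (fun h => hij h.symm), Finsupp.single_eq_of_ne hij]
    simp only [add_zero]
    ring

/-- `h ^ q dh` is closed -/
theorem closed (q : ℕ) (h : MvPolynomial (Fin n) K) (i j : Fin n) :
    pderiv i (h ^ q * pderiv j h) = pderiv j (h ^ q * pderiv i h) := by
  rw [pderiv_mul, pderiv_mul, pderiv_pow, pderiv_pow, pderiv_comm i j]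
  ring

/-- the basic exactness statement -/
theorem basic_mem (q : ℕ) (g h : MvPolynomial (Fin n) K) (i j : Fin n) :
    pderiv i g * (h ^ q * pderiv j h) - pderiv j g * (h ^ q * pderiv i h) ∈ Ex K n := by
  have : pderiv i g * (h ^ q * pderiv j h) - pderiv j g * (h ^ q * pderiv i h) =
      pderiv i (g * (h ^ q * pderiv j h)) - pderiv j (g * (h ^ q * pderiv i h)) := by
    rw [pderiv_mul (f := g), pderiv_mul (f := g), closed q h i j]
    ring
  rw [this]
  exact Submodule.sub_mem _ (pderiv_mem_Ex _ _) (pderiv_mem_Ex _ _)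

/-- the flux pairing -/
noncomputable def U (l : Fin n) (q : ℕ) (s : MvPolynomial (Fin n) K ≃ₐ[K] MvPolynomial (Fin n) K)
    (h : MvPolynomial (Fin n) K) : MvPolynomial (Fin n) K :=
  s (X l * (h ^ q * pderiv l h)) - X l * (s h ^ q * pderiv l (s h))

theorem U_mul (l : Fin n) (q : ℕ) (s t : MvPolynomial (Fin n) K ≃ₐ[K] MvPolynomial (Fin n) K)
    (h : MvPolynomial (Fin n) K) : U l q (s * t) h = s (U l q t h) + U l q s (t h) := by
  simp only [U, AlgEquiv.mul_apply, map_sub, map_mul, map_pow]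
  ring

theorem U_one (l : Fin n) (q : ℕ) (h : MvPolynomial (Fin n) K) :
    U l q (1 : MvPolynomial (Fin n) K ≃ₐ[K] MvPolynomial (Fin n) K) h = 0 := by
  simp [U]

/-- the automorphisms of trivial flux -/
noncomputable def H (K : Type*) [Field K] {n : ℕ} (l : Fin n) (q : ℕ) :
    Subgroup (MvPolynomial (Fin n) K ≃ₐ[K] MvPolynomial (Fin n) K) where
  carrier := {s | (∀ g ∈ Ex K n, s g ∈ Ex K n) ∧ (∀ g ∈ Ex K n, s⁻¹ g ∈ Ex K n) ∧
    ∀ h, U l q s h ∈ Ex K n}
  one_mem' := by
    refine ⟨fun g hg => by simpa using hg, fun g hg => by simpa using hg, fun h => ?_⟩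
    rw [U_one]
    exact Submodule.zero_mem _
  mul_mem' := by
    rintro s t ⟨hs1, hs2, hs3⟩ ⟨ht1, ht2, ht3⟩
    refine ⟨fun g hg => by simpa using hs1 _ (ht1 g hg),
      fun g hg => by simpa [mul_inv_rev] using ht2 _ (hs2 g hg), fun h => ?_⟩
    rw [U_mul]
    exact Submodule.add_mem _ (hs1 _ (ht3 h)) (hs3 _)
  inv_mem' := by
    rintro s ⟨hs1, hs2, hs3⟩
    refine ⟨hs2, by simpa using hs1, fun h => ?_⟩
    have h1 : U l q (s * s⁻¹) h = s (U l q s⁻¹ h) + U l q s (s⁻¹ h) := U_mul l q s s⁻¹ h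
    rw [mul_inv_cancel, U_one] at h1
    have h2 : s (U l q s⁻¹ h) ∈ Ex K n := by
      have : s (U l q s⁻¹ h) = - U l q s (s⁻¹ h) := by linear_combination -h1
      rw [this]
      exact Submodule.neg_mem _ (hs3 _)
    have h3 := hs2 _ h2
    rwa [← AlgEquiv.mul_apply, inv_mul_cancel, AlgEquiv.one_apply] at h3

/-- it is enough to preserve `Ex` for a family closed under inverses -/
theorem mem_H_iff {l : Fin n} {q : ℕ} {s : MvPolynomial (Fin n) K ≃ₐ[K] MvPolynomial (Fin n) K} :
    s ∈ H K l q ↔ (∀ g ∈ Ex K n, s g ∈ Ex K n) ∧ (∀ g ∈ Ex K n, s⁻¹ g ∈ Ex K n) ∧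
    ∀ h, U l q s h ∈ Ex K n := Iff.rfl

/-! ## elementary automorphisms -/

section elem

variable {l : Fin n} {f : MvPolynomial (Fin n) K}
  {s : MvPolynomial (Fin n) K ≃ₐ[K] MvPolynomial (Fin n) K}

theorem elem_pderiv (hf : pderiv l f = 0) (hl : s (X l) = X l + f)
    (hne : ∀ j, j ≠ l → s (X j) = X j) (j : Fin n) (u : MvPolynomial (Fin n) K) :
    pderiv j (s u) = s (pderiv j u) + (if j = l then 0 else s (pderiv l u) * pderiv j f) := by
  have h := chain (s : MvPolynomial (Fin n) K →ₐ[K] MvPolynomial (Fin n) K) j u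
  have h0 : pderiv j ((s : MvPolynomial (Fin n) K →ₐ[K] MvPolynomial (Fin n) K) u) =
    pderiv j (s u) := rfl
  rw [h0] at h
  rw [h]
  have h1 : ∀ i, (s : MvPolynomial (Fin n) K →ₐ[K] MvPolynomial (Fin n) K) (pderiv i u) *
      pderiv j ((s : MvPolynomial (Fin n) K →ₐ[K] MvPolynomial (Fin n) K) (X i)) =
      (if i = j then s (pderiv i u) else 0) +
        (if i = l then (if j = l then 0 else s (pderiv i u) * pderiv j f) else 0) := by
    intro i
    have h2 : (s : MvPolynomial (Fin n) K →ₐ[K] MvPolynomial (Fin n) K) (X i) = s (X i) := rfl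
    have h3 : (s : MvPolynomial (Fin n) K →ₐ[K] MvPolynomial (Fin n) K) (pderiv i u) =
      s (pderiv i u) := rfl
    rw [h2, h3]
    by_cases hil : i = l
    · subst hil
      rw [hl, map_add]
      by_cases hji : j = i
      · subst hji
        simp [hf]
      · rw [pderiv_X_of_ne (fun h => hji h.symm), if_neg (fun h => hji h.symm)]
        simp [hji]
    · rw [hne i hil]
      by_cases hij : i = j
      · subst hij; simp [hil]
      · rw [pderiv_X_of_ne hij]; simp [hij, hil]
  rw [Finset.sum_congr rfl (fun i _ => h1 i), Finset.sum_add_distrib]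
  simp

theorem elem_Ex (hf : pderiv l f = 0) (hl : s (X l) = X l + f)
    (hne : ∀ j, j ≠ l → s (X j) = X j) : ∀ g ∈ Ex K n, s g ∈ Ex K n := by
  intro g hg
  refine Ex_map (F := (s : MvPolynomial (Fin n) K →ₐ[K] MvPolynomial (Fin n) K).toLinearMap)
    (fun j u => ?_) hg
  have h0 : (s : MvPolynomial (Fin n) K →ₐ[K] MvPolynomial (Fin n) K).toLinearMap
    (pderiv j u) = s (pderiv j u) := rfl
  rw [h0]
  have h1 := elem_pderiv hf hl hne j u
  have h2 := elem_pderiv hf hl hne l u
  rw [if_pos rfl, add_zero] at h2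
  by_cases hj : j = l
  · rw [if_pos hj, add_zero] at h1
    rw [← h1]
    exact pderiv_mem_Ex _ _
  · rw [if_neg hj, ← h2] at h1
    have h3 : pderiv l (pderiv j f) = 0 := by rw [pderiv_comm, hf, map_zero]
    have h4 : s (pderiv j u) = pderiv j (s u) - pderiv l (s u * pderiv j f) := by
      rw [h1, pderiv_mul, h3]; ring
    rw [h4]
    exact Submodule.sub_mem _ (pderiv_mem_Ex _ _) (pderiv_mem_Ex _ _)

theorem elem_U (q : ℕ) (hf : pderiv l f = 0) (hl : s (X l) = X l + f)
    (hne : ∀ j, j ≠ l → s (X j) = X j) (h : MvPolynomial (Fin n) K) :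
    U l q s h = f * (s h ^ q * pderiv l (s h)) := by
  have h2 := elem_pderiv hf hl hne l h
  rw [if_pos rfl, add_zero] at h2
  rw [U, map_mul, map_mul, map_pow, hl, ← h2]
  ring

theorem fixed_of_supported {l : Fin n} {t : MvPolynomial (Fin n) K ≃ₐ[K] MvPolynomial (Fin n) K}
    (hne : ∀ j, j ≠ l → t (X j) = X j) {f : MvPolynomial (Fin n) K}
    (hv : f ∈ supported K ({l}ᶜ : Set (Fin n))) : t f = f := by
  have : supported K ({l}ᶜ : Set (Fin n)) ≤
      AlgHom.equalizer (t : MvPolynomial (Fin n) K →ₐ[K] MvPolynomial (Fin n) K)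
        (AlgHom.id K _) := by
    rw [supported_eq_adjoin_X]
    apply Algebra.adjoin_le
    rintro x ⟨j, hj, rfl⟩
    exact hne j hj
  exact this hv

theorem pderiv_supported {l : Fin n} {f : MvPolynomial (Fin n) K}
    (hv : f ∈ supported K ({l}ᶜ : Set (Fin n))) : pderiv l f = 0 := by
  apply pderiv_eq_zero_of_notMem_vars
  rw [mem_supported] at hv
  intro h
  exact hv h rfl

/-- elementary automorphisms with exact increment have trivial flux -/
theorem elem_mem_H {q : ℕ} (hv : f ∈ supported K ({l}ᶜ : Set (Fin n)))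
    (hf2 : ∀ h : MvPolynomial (Fin n) K, f * (h ^ q * pderiv l h) ∈ Ex K n)
    (hl : s (X l) = X l + f) (hne : ∀ j, j ≠ l → s (X j) = X j) : s ∈ H K l q := by
  have hf := pderiv_supported hv
  have hne' : ∀ j, j ≠ l → s⁻¹ (X j) = X j := by
    intro j hj
    have h1 : s⁻¹ (s (X j)) = X j := by
      rw [← AlgEquiv.mul_apply, inv_mul_cancel, AlgEquiv.one_apply]
    rwa [hne j hj] at h1
  have hl' : s⁻¹ (X l) = X l + (-f) := by
    have h1 : s⁻¹ (s (X l)) = X l := by
      rw [← AlgEquiv.mul_apply, inv_mul_cancel, AlgEquiv.one_apply]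
    rw [hl, map_add, fixed_of_supported hne' hv] at h1
    linear_combination h1
  refine ⟨elem_Ex hf hl hne, elem_Ex (by rw [map_neg, hf, neg_zero]) hl' hne', fun h => ?_⟩
  rw [elem_U q hf hl hne]
  exact hf2 _

end elem

/-! ## affine automorphisms -/

section aff

variable {s : MvPolynomial (Fin n) K ≃ₐ[K] MvPolynomial (Fin n) K}
  {M : Matrix (Fin n) (Fin n) K} {b : Fin n → K}

theorem aff_pderiv (hs : ∀ i, s (X i) = ∑ j, C (M i j) * X j + C (b i)) (j : Fin n)
    (u : MvPolynomial (Fin n) K) :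
    pderiv j (s u) = ∑ i, C (M i j) * s (pderiv i u) := by
  have h := chain (s : MvPolynomial (Fin n) K →ₐ[K] MvPolynomial (Fin n) K) j u
  have h0 : pderiv j ((s : MvPolynomial (Fin n) K →ₐ[K] MvPolynomial (Fin n) K) u) =
    pderiv j (s u) := rfl
  rw [h0] at h
  rw [h]
  apply Finset.sum_congr rfl
  intro i _
  have h2 : (s : MvPolynomial (Fin n) K →ₐ[K] MvPolynomial (Fin n) K) (X i) = s (X i) := rfl
  have h3 : (s : MvPolynomial (Fin n) K →ₐ[K] MvPolynomial (Fin n) K) (pderiv i u) =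
    s (pderiv i u) := rfl
  rw [h2, h3, hs i, map_add, map_sum, pderiv_C, add_zero]
  rw [Finset.sum_eq_single j]
  · rw [pderiv_C_mul, pderiv_X_self, mul_one, mul_comm]
  · intro k _ hk
    rw [pderiv_C_mul, pderiv_X_of_ne hk, mul_zero]
  · simp

/-- the inverse chain rule for affine maps -/
theorem aff_pderiv' (hM : M.det ≠ 0) (hs : ∀ i, s (X i) = ∑ j, C (M i j) * X j + C (b i))
    (i : Fin n) (u : MvPolynomial (Fin n) K) :
    s (pderiv i u) = ∑ j, C (M⁻¹ j i) * pderiv j (s u) := by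
  have h1 : ∀ j, C (M⁻¹ j i) * pderiv j (s u) =
      ∑ k, C (M k j * M⁻¹ j i) * s (pderiv k u) := by
    intro j
    rw [aff_pderiv hs, Finset.mul_sum]
    apply Finset.sum_congr rfl
    intro k _
    rw [C_mul]; ring
  rw [Finset.sum_congr rfl (fun j _ => h1 j), Finset.sum_comm]
  have h2 : ∀ k, ∑ j, C (M k j * M⁻¹ j i) * s (pderiv k u) =
      if k = i then s (pderiv k u) else 0 := by
    intro k
    rw [← Finset.sum_mul, ← map_sum]
    have h3 : ∑ j, M k j * M⁻¹ j i = (1 : Matrix (Fin n) (Fin n) K) k i := by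
      rw [← Matrix.mul_nonsing_inv M (Ne.isUnit hM), Matrix.mul_apply]
    rw [h3, Matrix.one_apply]
    split_ifs with h4
    · simp
    · simp
  rw [Finset.sum_congr rfl (fun k _ => h2 k)]
  simp

theorem aff_Ex (hM : M.det ≠ 0) (hs : ∀ i, s (X i) = ∑ j, C (M i j) * X j + C (b i)) :
    ∀ g ∈ Ex K n, s g ∈ Ex K n := by
  intro g hg
  refine Ex_map (F := (s : MvPolynomial (Fin n) K →ₐ[K] MvPolynomial (Fin n) K).toLinearMap)
    (fun j u => ?_) hg
  have h0 : (s : MvPolynomial (Fin n) K →ₐ[K] MvPolynomial (Fin n) K).toLinearMap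
    (pderiv j u) = s (pderiv j u) := rfl
  rw [h0, aff_pderiv' hM hs]
  apply Submodule.sum_mem
  intro k _
  rw [← smul_eq_C_mul]
  exact Submodule.smul_mem _ _ (pderiv_mem_Ex _ _)

/-- the inverse of an affine automorphism is affine -/
theorem aff_inv (hM : M.det ≠ 0) (hs : ∀ i, s (X i) = ∑ j, C (M i j) * X j + C (b i)) :
    ∃ (M' : Matrix (Fin n) (Fin n) K) (b' : Fin n → K), M'.det ≠ 0 ∧
      ∀ i, s⁻¹ (X i) = ∑ j, C (M' i j) * X j + C (b' i) := by
  refine ⟨M⁻¹, fun i => - ∑ j, M⁻¹ i j * b j, ?_, fun i => ?_⟩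
  · rw [Matrix.det_nonsing_inv, Ring.inverse_eq_inv']
    exact inv_ne_zero hM
  · apply s.injective
    rw [← AlgEquiv.mul_apply, mul_inv_cancel, AlgEquiv.one_apply, map_add, map_sum]
    have h1 : ∀ j, s (C (M⁻¹ i j) * X j) = C (M⁻¹ i j) * (∑ k, C (M j k) * X k + C (b j)) := by
      intro j
      rw [map_mul, hs j]
      congr 1
      simpa [algebraMap_eq] using s.commutes (M⁻¹ i j)
    have h2 : s (C (- ∑ j, M⁻¹ i j * b j)) = C (- ∑ j, M⁻¹ i j * b j) := by
      simpa [algebraMap_eq] using s.commutes (- ∑ j, M⁻¹ i j * b j)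
    rw [Finset.sum_congr rfl (fun j _ => h1 j), h2]
    simp only [mul_add, Finset.sum_add_distrib, Finset.mul_sum]
    rw [Finset.sum_comm]
    have h3 : ∀ k, ∑ j, C (M⁻¹ i j) * (C (M j k) * (X k : MvPolynomial (Fin n) K)) =
        if i = k then X k else 0 := by
      intro k
      have h4 : ∀ j, C (M⁻¹ i j) * (C (M j k) * (X k : MvPolynomial (Fin n) K)) =
          C (M⁻¹ i j * M j k) * X k := by
        intro j; rw [C_mul]; ring
      rw [Finset.sum_congr rfl (fun j _ => h4 j), ← Finset.sum_mul, ← map_sum]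
      have h3 : ∑ j, M⁻¹ i j * M j k = (1 : Matrix (Fin n) (Fin n) K) i k := by
        rw [← Matrix.nonsing_inv_mul M (Ne.isUnit hM), Matrix.mul_apply]
      rw [h3, Matrix.one_apply]
      split_ifs <;> simp
    rw [Finset.sum_congr rfl (fun k _ => h3 k)]
    simp only [map_neg, map_sum, C_mul]
    simp

theorem aff_U_aux (q : ℕ) (h : MvPolynomial (Fin n) K) {j k i : Fin n} (hjk : j ≠ k)
    (hij : i ≠ j) (hik : i ≠ k) : X j * (h ^ q * pderiv k h) ∈ Ex K n := by
  have := basic_mem q (X i * X j) h i k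
  rw [pderiv_mul, pderiv_mul, pderiv_X_self, pderiv_X_of_ne (fun h => hij h.symm),
    pderiv_X_of_ne hik, pderiv_X_of_ne hjk] at this
  simpa using this

theorem aff_U_aux2 (q : ℕ) (h : MvPolynomial (Fin n) K) (k l : Fin n) :
    X k * (h ^ q * pderiv k h) - X l * (h ^ q * pderiv l h) ∈ Ex K n := by
  by_cases hkl : k = l
  · subst hkl; simp
  · have := basic_mem q (X k * X l) h l k
    rw [pderiv_mul, pderiv_mul, pderiv_X_self, pderiv_X_self, pderiv_X_of_ne hkl,
      pderiv_X_of_ne (fun h => hkl h.symm)] at this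
    simpa using this

theorem aff_U_aux3 (q : ℕ) (h : MvPolynomial (Fin n) K) {k i : Fin n} (hik : i ≠ k) :
    h ^ q * pderiv k h ∈ Ex K n := by
  have := basic_mem q (X i) h i k
  rw [pderiv_X_self, pderiv_X_of_ne hik] at this
  simpa using this

theorem aff_U (hn : 3 ≤ n) {l : Fin n} (q : ℕ) (hM : M.det ≠ 0)
    (hs : ∀ i, s (X i) = ∑ j, C (M i j) * X j + C (b i)) (h : MvPolynomial (Fin n) K) :
    U l q s h ∈ Ex K n := by
  have h3 : ∀ j k : Fin n, ∃ i : Fin n, i ≠ j ∧ i ≠ k := by
    intro j k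
    have h4 : ({j, k} : Finset (Fin n)).card < (Finset.univ : Finset (Fin n)).card := by
      calc ({j, k} : Finset (Fin n)).card ≤ 2 := Finset.card_le_two
        _ < (Finset.univ : Finset (Fin n)).card := by simp; omega
    obtain ⟨i, -, hi⟩ := Finset.exists_mem_notMem_of_card_lt_card h4
    simp only [Finset.mem_insert, Finset.mem_singleton, not_or] at hi
    exact ⟨i, hi⟩
  set g := s h with hg
  -- the expansion
  have h1 : s (X l * (h ^ q * pderiv l h)) =
      ∑ j, ∑ k, C (M l j * M⁻¹ k l) * (X j * (g ^ q * pderiv k g)) +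
        ∑ k, C (b l * M⁻¹ k l) * (g ^ q * pderiv k g) := by
    rw [map_mul, map_mul, map_pow, ← hg, hs l, aff_pderiv' hM hs, ← hg, add_mul, Finset.sum_mul,
      Finset.mul_sum, Finset.mul_sum]
    congr 1
    · apply Finset.sum_congr rfl
      intro j _
      rw [Finset.mul_sum]
      apply Finset.sum_congr rfl
      intro k _
      rw [C_mul]; ring
    · apply Finset.sum_congr rfl
      intro k _
      rw [C_mul]; ring
  have h2 : ∑ j, M l j * M⁻¹ j l = 1 := by
    have : ∑ j, M l j * M⁻¹ j l = (1 : Matrix (Fin n) (Fin n) K) l l := by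
      rw [← Matrix.mul_nonsing_inv M (Ne.isUnit hM), Matrix.mul_apply]
    rw [this, Matrix.one_apply_eq]
  have h5 : U l q s h = ∑ j, (∑ k, C (M l j * M⁻¹ k l) * (X j * (g ^ q * pderiv k g)) -
      C (M l j * M⁻¹ j l) * (X l * (g ^ q * pderiv l g))) +
        ∑ k, C (b l * M⁻¹ k l) * (g ^ q * pderiv k g) := by
    rw [U, h1, ← hg, Finset.sum_sub_distrib, ← Finset.sum_mul, ← map_sum, h2]
    simp
    ring
  rw [h5]
  refine Submodule.add_mem _ (Submodule.sum_mem _ fun j _ => ?_)
    (Submodule.sum_mem _ fun k _ => ?_)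
  · rw [← Finset.add_sum_erase _ _ (Finset.mem_univ j), add_comm, add_sub_assoc, ← mul_sub]
    refine Submodule.add_mem _ (Submodule.sum_mem _ fun k hk => ?_) ?_
    · rw [← smul_eq_C_mul]
      obtain ⟨i, hi1, hi2⟩ := h3 j k
      exact Submodule.smul_mem _ _ (aff_U_aux q g (Finset.ne_of_mem_erase hk).symm hi1 hi2)
    · rw [← smul_eq_C_mul]
      exact Submodule.smul_mem _ _ (aff_U_aux2 q g j l)
  · rw [← smul_eq_C_mul]
    obtain ⟨i, hi1, -⟩ := h3 k k
    exact Submodule.smul_mem _ _ (aff_U_aux3 q g hi1)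

theorem aff_mem_H (hn : 3 ≤ n) {l : Fin n} (q : ℕ) (hM : M.det ≠ 0)
    (hs : ∀ i, s (X i) = ∑ j, C (M i j) * X j + C (b i)) : s ∈ H K l q := by
  obtain ⟨M', b', hM', hs'⟩ := aff_inv hM hs
  exact ⟨aff_Ex hM hs, aff_Ex hM' hs', fun h => aff_U hn q hM hs h⟩

end aff

/-! ## an automorphism with nontrivial flux -/

theorem prod_eq_monomial (l : Fin n) (q : ℕ) :
    ((∏ j ∈ Finset.univ.erase l, X j) ^ q : MvPolynomial (Fin n) K) =
      monomial (Finsupp.equivFunOnFinite.symm (fun j => if j = l then 0 else q)) 1 := by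
  rw [monomial_eq, C_1, one_mul, Finsupp.prod_fintype _ _ (by simp),
    ← Finset.mul_prod_erase _ _ (Finset.mem_univ l), ← Finset.prod_pow]
  simp only [Finsupp.equivFunOnFinite_symm_apply_apply, if_true, pow_zero, one_mul]
  apply Finset.prod_congr rfl
  intro j hj
  rw [if_neg (Finset.ne_of_mem_erase hj)]

theorem not_mem_H {p : ℕ} (hn : 2 ≤ n) (hp : p.Prime) [CharP K p] {l : Fin n}
    {t : MvPolynomial (Fin n) K ≃ₐ[K] MvPolynomial (Fin n) K}
    (ht : t (X l) = X l + (∏ j ∈ Finset.univ.erase l, X j) ^ (p - 1)) : t ∉ H K l (p - 1) := by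
  intro hH
  have h1 := hH.2.2 (X l)
  set m : MvPolynomial (Fin n) K := (∏ j ∈ Finset.univ.erase l, X j) ^ (p - 1) with hm
  have hp1 : 1 ≤ p - 1 := by have := hp.two_le; omega
  have hmv : pderiv l m = 0 := by
    apply pderiv_supported
    rw [hm]
    apply Subalgebra.pow_mem
    apply Subalgebra.prod_mem
    intro j hj
    rw [X_mem_supported]
    exact Finset.ne_of_mem_erase hj
  have hU : U l (p - 1) t (X l) = m * (X l + m) ^ (p - 1) := by
    rw [U, pderiv_X_self, mul_one, map_mul, map_pow, ht, map_add, hmv, pderiv_X_self]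
    ring
  rw [hU] at h1
  set e : Fin n →₀ ℕ := Finsupp.equivFunOnFinite.symm (fun j => if j = l then 0 else (p - 1))
    with he
  have hme : m = monomial e 1 := prod_eq_monomial l (p - 1)
  have hcast : ((p - 1 + 1 : ℕ) : K) = 0 := by
    rw [Nat.sub_add_cancel hp.one_le]; exact CharP.cast_eq_zero K p
  have h2 := coeff_Ex (e + Finsupp.single l (p - 1)) (fun i => by
    rw [he]
    by_cases hi : i = l
    · subst hi; simpa using hcast
    · simpa [hi, Finsupp.single_apply, fun h : l = i => hi h.symm] using hcast) h1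
  rw [hme, coeff_monomial_mul, one_mul] at h2
  rw [← hme] at h2
  obtain ⟨r, hr⟩ : m ∣ (X l + m) ^ (p - 1) - X l ^ (p - 1) := by
    have := sub_dvd_pow_sub_pow (X l + m) (X l) (p - 1)
    simpa using this
  have h3 : (X l + m) ^ (p - 1) = X l ^ (p - 1) + m * r := by rw [← hr]; ring
  rw [h3, coeff_add, hme, coeff_monomial_mul', if_neg, add_zero, coeff_X_pow, if_pos rfl] at h2
  · exact one_ne_zero h2
  · intro hle
    obtain ⟨j, hj⟩ : ∃ j : Fin n, j ≠ l := by
      haveI : Nontrivial (Fin n) := Fin.nontrivial_iff_two_le.mpr hn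
      exact exists_ne l
    have := hle j
    rw [he] at this
    simp [hj, Finsupp.single_apply, fun h : l = j => hj h.symm] at this
    omega

end Pool.Agent.Helper555_Gen
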