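import Mathlib
import Pool.Agent.Helper555_TN.Free
import Pool.Agent.Helper555_Gen.Def
import Pool.Agent.Helper555_Gen.Flux

set_option autoImplicit false

/-!
# The affine automorphisms and `sigma` do not generate in positive characteristic
-/

open MvPolynomial Pool.Agent.Helper555_TN

namespace Pool.Agent.Helper555_Gen

variable {K : Type*} [Field K] {n : ℕ}

/-- elementary automorphisms induced on the polynomial algebra -/
theorem Ind_elem {l : Fin n} {f : FreeAlgebra K (Fin n)}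
    (hf : f ∈ Algebra.adjoin K (FreeAlgebra.ι K '' ({l}ᶜ : Set (Fin n)))) :
    Ind K n (elemAut l f hf) (X l) = X l + abel K n f ∧
      ∀ j, j ≠ l → Ind K n (elemAut l f hf) (X j) = X j := by
  constructor
  · rw [Ind_X, elemAut_self, map_add, abel_ι]
  · intro j hj
    rw [Ind_X, elemAut_ne hj, abel_ι]

theorem Ind_affine (hn : 3 ≤ n) (l : Fin n) (q : ℕ)
    {φ : FreeAlgebra K (Fin n) ≃ₐ[K] FreeAlgebra K (Fin n)} (h : IsAffF φ) :
    Ind K n φ ∈ H K l q := by
  obtain ⟨M, b, hM, hb⟩ := h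
  refine aff_mem_H hn q hM (b := b) (fun i => ?_)
  rw [Ind_X, hb]
  simp [smul_eq_C_mul, algebraMap_eq]

theorem Ind_sigma (hn : 4 ≤ n) (q : ℕ) :
    Ind K n (sigma K n hn) ∈ H K (⟨n - 1, by omega⟩ : Fin n) q := by
  obtain ⟨h1, h2⟩ := Ind_elem (K := K) (ι_mul_mem hn)
  have hab : abel K n (FreeAlgebra.ι K (⟨0, by omega⟩ : Fin n) *
      FreeAlgebra.ι K ⟨1, by omega⟩) = X ⟨0, by omega⟩ * X ⟨1, by omega⟩ := by simp
  rw [hab] at h1
  refine elem_mem_H ?_ (fun h => ?_) h1 h2
  · apply Subalgebra.mul_mem <;> rw [X_mem_supported] <;> simp [Fin.ext_iff] <;> omega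
  · have h3 := basic_mem q (X ⟨0, by omega⟩ * X ⟨1, by omega⟩ * X ⟨2, by omega⟩) h
      (⟨2, by omega⟩ : Fin n) ⟨n - 1, by omega⟩
    have e1 : pderiv (⟨2, by omega⟩ : Fin n) (X ⟨0, by omega⟩ * X ⟨1, by omega⟩ *
        X ⟨2, by omega⟩ : MvPolynomial (Fin n) K) = X ⟨0, by omega⟩ * X ⟨1, by omega⟩ := by
      rw [pderiv_mul, pderiv_mul, pderiv_X_self, pderiv_X_of_ne, pderiv_X_of_ne]
      · ring
      · simp [Fin.ext_iff]
      · simp [Fin.ext_iff]
    have e2 : pderiv (⟨n - 1, by omega⟩ : Fin n) (X ⟨0, by omega⟩ * X ⟨1, by omega⟩ *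
        X ⟨2, by omega⟩ : MvPolynomial (Fin n) K) = 0 := by
      rw [pderiv_mul, pderiv_mul, pderiv_X_of_ne, pderiv_X_of_ne, pderiv_X_of_ne]
      · ring
      · simp [Fin.ext_iff]; omega
      · simp [Fin.ext_iff]; omega
      · simp [Fin.ext_iff]; omega
    rw [e1, e2, zero_mul, sub_zero] at h3
    exact h3

theorem abel_prodInit (n : ℕ) (hn : 4 ≤ n) :
    abel K n (prodInit K n) = ∏ j ∈ Finset.univ.erase (⟨n - 1, by omega⟩ : Fin n), X j := by
  obtain ⟨m, rfl⟩ : ∃ m, n = m + 1 := ⟨n - 1, by omega⟩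
  have h1 : abel K (m + 1) (prodInit K (m + 1)) =
      ∏ j : Fin m, (X (j.castSucc) : MvPolynomial (Fin (m + 1)) K) := by
    rw [prodInit, map_list_prod, List.map_ofFn]
    rw [List.prod_ofFn]
    apply Finset.prod_congr rfl
    intro j _
    simp
    rfl
  rw [h1]
  have h2 : (Finset.univ.erase (⟨m + 1 - 1, by omega⟩ : Fin (m + 1))) =
      (Finset.univ : Finset (Fin m)).map Fin.castSuccEmb := by
    ext j
    simp only [Finset.mem_erase, Finset.mem_univ, and_true, Finset.mem_map, true_and]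
    constructor
    · intro hj
      refine ⟨⟨j, ?_⟩, ?_⟩
      · have := j.2
        have h3 : (j : ℕ) ≠ m := fun h => hj (Fin.ext (by simpa using h))
        omega
      · ext; simp
    · rintro ⟨i, rfl⟩ h
      have := congrArg Fin.val h
      simp at this
      omega
  rw [h2, Finset.prod_map]
  rfl

/-- in characteristic `p > 0` and for `n ≥ 4` the elementary automorphism
`x_n ↦ x_n + (x_1 ⋯ x_(n-1)) ^ (p - 1)` does not lie in the subgroup generated by the affine
automorphisms and `sigma` -/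
theorem tau_notMem {p : ℕ} (hp : p.Prime) [CharP K p] (hn : 4 ≤ n) :
    tau K n hn (p - 1) ∉ Subgroup.closure
      ({φ : FreeAlgebra K (Fin n) ≃ₐ[K] FreeAlgebra K (Fin n) | IsAffF φ} ∪ {sigma K n hn}) := by
  intro hmem
  have h1 : Subgroup.closure
      ({φ : FreeAlgebra K (Fin n) ≃ₐ[K] FreeAlgebra K (Fin n) | IsAffF φ} ∪ {sigma K n hn}) ≤
      (H K (⟨n - 1, by omega⟩ : Fin n) (p - 1)).comap (Ind K n) := by
    rw [Subgroup.closure_le]
    rintro φ (hφ | hφ)
    · exact Ind_affine (by omega) _ _ hφ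
    · rw [Set.mem_singleton_iff] at hφ
      subst hφ
      exact Ind_sigma hn _
  have h2 := h1 hmem
  rw [Subgroup.mem_comap] at h2
  refine not_mem_H (by omega) hp ?_ h2
  have h3 := (Ind_elem (K := K) (prodInit_mem hn (p - 1))).1
  rw [map_pow, abel_prodInit n hn] at h3
  exact h3

end Pool.Agent.Helper555_Gen
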